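import Mathlib
import Pool.Agent.W889.SR.Stm

/-!
# Definability of types (project SR)
-/

set_option autoImplicit false

namespace Pool.Agent.W64.SR

open Set Ordinal Pool.Agent.W889.SR

theorem countable_cond {T : Type} [Countable T] {α : Ordinal.{0}} (hα : (Set.Iio α).Countable) :
    Countable (Cond T α) := by
  haveI := hα.to_subtype
  let F : Cond T α → (Σ n : ℕ, (Fin n → T)) × Set.Iio α := fun p => (⟨p.n, p.e⟩, ⟨p.β, p.lt⟩)
  refine Function.Injective.countable (f := F) ?_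
  rintro ⟨n, e, β, h1, h2⟩ ⟨n', e', β', h1', h2'⟩ h
  simp only [F, Prod.mk.injEq, Sigma.mk.injEq, Subtype.mk.injEq] at h
  obtain ⟨⟨rfl, h3⟩, h4⟩ := h
  have h5 : β = β' := by
    first
      | exact h4
      | exact congrArg Subtype.val h4
  rw [heq_iff_eq] at h3
  subst h3
  subst h5
  rfl

theorem countable_SB {T : Type} [Countable T] {α : Ordinal.{0}} (hα : (Set.Iio α).Countable) :
    Countable (SB T α) := by
  haveI := hα.to_subtype
  let F : ((ℕ × ℕ) ⊕ (ℕ × ℕ)) ⊕ (Σ n : ℕ, (T × (Fin n → T)) × (Set.Iio α × (Fin n → ℕ))) →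
      SB T α := fun x => match x with
    | Sum.inl (Sum.inl p) => SB.le p.1 p.2
    | Sum.inl (Sum.inr p) => SB.eq p.1 p.2
    | Sum.inr ⟨n, p⟩ => SB.cb n p.1.1 p.1.2 p.2.1 p.2.2
  refine Function.Surjective.countable (f := F) ?_
  intro y
  cases y with
  | le i j => exact ⟨Sum.inl (Sum.inl (i, j)), rfl⟩
  | eq i j => exact ⟨Sum.inl (Sum.inr (i, j)), rfl⟩
  | cb n e a β u => exact ⟨Sum.inr ⟨n, (e, a), (β, u)⟩, rfl⟩

theorem lv_qf (b : Bool) {n : ℕ} (φ : QF n) (α : Ordinal.{0}) : (Fml.qf φ).Lv b α := by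
  cases b <;> simp [Fml.Lv]

/-- conjunction of equations -/
def qfAll {m : ℕ} : List (Fin m × Fin m) → QF m
  | [] => QF.tru
  | x :: l => QF.and (QF.eq x.1 x.2) (qfAll l)

theorem qfAll_realize {m : ℕ} {A : Type} (r : A → A → Prop) (v : Fin m → A)
    (l : List (Fin m × Fin m)) : (qfAll l).Realize r v ↔ ∀ x ∈ l, v x.1 = v x.2 := by
  induction l with
  | nil => simp [qfAll, QF.Realize]
  | cons x l ih => simp only [qfAll, QF.Realize, ih, List.mem_cons, forall_eq_or_imp]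

theorem sigDef_ex (hFM : FM) {s : ℕ → ℕ → Prop} {α : Ordinal.{0}} (hα : 1 ≤ α) {n : ℕ}
    {I : Type 1} [Countable I] {R : I → (Fin n → ℕ) → Prop} (h : ∀ i, SigDef s α (R i)) :
    SigDef s α (fun v => ∃ i, R i v) := by
  rcases isEmpty_or_nonempty I with hI | hI
  · refine ⟨Fml.qf (QF.neg QF.tru), lv_qf _ _ _, fun v => ?_⟩
    simp [Fml.Realize, QF.Realize]
  · obtain ⟨e, he⟩ := exists_surjective_nat I
    choose φ hφ hv using h
    obtain ⟨φ', h1, h2⟩ := hFM.disj α hα n (fun i => φ (e i)) (fun i => hφ (e i))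
    refine ⟨φ', h1, fun v => ?_⟩
    rw [h2]
    constructor
    · rintro ⟨i, hi⟩
      exact ⟨e i, (hv _ _).1 hi⟩
    · rintro ⟨i, hi⟩
      obtain ⟨j, rfl⟩ := he i
      exact ⟨j, (hv _ _).2 hi⟩

theorem piDef_all (hFM : FM) {s : ℕ → ℕ → Prop} {α : Ordinal.{0}} (hα : 1 ≤ α) {n : ℕ}
    {I : Type 1} [Countable I] {R : I → (Fin n → ℕ) → Prop} (h : ∀ i, PiDef s α (R i)) :
    PiDef s α (fun v => ∀ i, R i v) := by
  rcases isEmpty_or_nonempty I with hI | hI
  · refine ⟨Fml.qf QF.tru, lv_qf _ _ _, fun v => ?_⟩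
    simp [Fml.Realize, QF.Realize]
  · obtain ⟨e, he⟩ := exists_surjective_nat I
    choose φ hφ hv using h
    obtain ⟨φ', h1, h2⟩ := hFM.conj α hα n (fun i => φ (e i)) (fun i => hφ (e i))
    refine ⟨φ', h1, fun v => ?_⟩
    rw [h2]
    constructor
    · intro hi i
      obtain ⟨j, rfl⟩ := he i
      exact (hv _ _).1 (hi j)
    · intro hi i
      exact (hv _ _).2 (hi (e i))

theorem piDef_not (hFM : FM) {s : ℕ → ℕ → Prop} {α : Ordinal.{0}} {n : ℕ}
    {R : (Fin n → ℕ) → Prop} (h : SigDef s α R) : PiDef s α (fun v => ¬ R v) := by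
  obtain ⟨φ, h1, h2⟩ := h
  obtain ⟨φ', h3, h4⟩ := hFM.neg n φ
  refine ⟨φ', h3 true α h1, fun v => ?_⟩
  rw [h4, h2]

theorem defn : DEF_stmt := by
  intro hFM hRD hQ T _ α hα hαc r s htr
  haveI := countable_cond (T := T) hαc
  haveI := hQ (SB T α) (countable_SB hαc)
  have hα1 : (1 : Ordinal.{0}) ≤ α := by
    refine le_trans ?_ hα
    exact_mod_cast one_le_two
  have hsig : ∀ (k : ℕ) (q : Q (SB T α)), SigDef s α (PQ (α := α) r k q s) := by
    intro k q
    obtain ⟨t1, t2⟩ := htr k q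
    have hx : ∀ x : {x : Σ p : Cond T α, (Fin (k + 1) → Fin p.n) //
        Force r x.1 x.2 (PQ (α := α) r k q)},
        SigDef s α (fun f : Fin (k + 1) → ℕ => ∃ g : Fin x.1.1.n → ℕ, Rl r x.1.1 s g ∧
          g ∘ x.1.2 = f) := by
      rintro ⟨⟨p, u⟩, -⟩
      obtain ⟨χ, hχ1, hχ2⟩ := hRD T α r p s
      obtain ⟨χ1, h1, h2⟩ := hFM.re p.n (k + 1 + p.n) (Fin.natAdd (k + 1)) χ
      obtain ⟨χ2, h3, h4⟩ := hFM.lift (k + 1 + p.n) χ1 false
      have h5 : χ2.Lv true α := h3 p.β α p.lt (h1 false p.β hχ1)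
      let E : QF (k + 1 + p.n) := qfAll ((List.finRange (k + 1)).map fun j =>
        (Fin.castAdd p.n j, Fin.natAdd (k + 1) (u j)))
      obtain ⟨χ3, h6, h7⟩ := hFM.and true α (k + 1 + p.n) χ2 (Fml.qf E) h5 (lv_qf _ _ _)
      obtain ⟨χ4, h8, h9⟩ := hFM.ex α hα1 (k + 1) p.n χ3 h6
      refine ⟨χ4, h8, fun f => ?_⟩
      rw [h9]
      refine exists_congr fun w => ?_
      rw [h7, h4, h2, hχ2]
      have e1 : Fin.append f w ∘ Fin.natAdd (k + 1) = w := by
        funext i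
        simp
      rw [e1]
      refine and_congr_right fun _ => ?_
      rw [Fml.Realize, qfAll_realize]
      simp only [List.mem_map, List.mem_finRange, true_and, forall_exists_index,
        forall_apply_eq_imp_iff, Fin.append_left, Fin.append_right]
      constructor
      · intro h
        funext j
        exact (h j).symm
      · rintro rfl j
        rfl
    have hex := sigDef_ex hFM hα1 hx
    obtain ⟨φ, h1, h2⟩ := hex
    refine ⟨φ, h1, fun v => ?_⟩
    rw [h2]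
    constructor
    · rintro ⟨⟨⟨p, u⟩, hF⟩, g, hg, rfl⟩
      exact t1 p u hF g hg
    · intro hv
      obtain ⟨p, u, g, hF, hg, hgu⟩ := t2 v hv
      exact ⟨⟨⟨p, u⟩, hF⟩, g, hg, hgu⟩
  intro k v c
  have hall : PiDef s α (fun f : Fin (k + 1) → ℕ => ∀ q : Q (SB T α),
      (q.sat (Bs (α := α) r) s v (ext v c) ↔ PQ (α := α) r k q s f)) := by
    refine piDef_all hFM hα1 fun q => ?_
    by_cases hq : q.sat (Bs (α := α) r) s v (ext v c)
    · obtain ⟨φ, h1, h2⟩ := piDef_not hFM (hsig k (Q.neg q))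
      refine ⟨φ, h1, fun f => ?_⟩
      rw [h2]
      have e : PQ (α := α) r k (Q.neg q) s f ↔ ¬ PQ (α := α) r k q s f := Iff.rfl
      change ¬ PQ (α := α) r k (Q.neg q) s f ↔
        (q.sat (Bs (α := α) r) s v (ext v c) ↔ PQ (α := α) r k q s f)
      rw [e, not_not]
      simp only [hq, true_iff]
    · obtain ⟨φ, h1, h2⟩ := piDef_not hFM (hsig k q)
      refine ⟨φ, h1, fun f => ?_⟩
      rw [h2]
      simp only [hq, false_iff]
  exact hall

end Pool.Agent.W64.SR
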